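import Pool.Agent.Y551.EL.Main

/-!
# No ETOL language is hardest even for a very small class of ETOL languages over two letters

The starting result `NoHardest` shows that there is no hardest ETOL language. Here the languages
which cannot be represented are very simple. A *right-linear* system is an ETOL system with
deterministic tables in which terminal letters are constants and each table replaces a nonterminal
by a terminal word followed by at most one nonterminal. So each sentential form has at most as
many nonterminals as the axiom: the languages of these systems are EDTOL languages of finite index.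

* For every `k` there is a language over the two-letter alphabet, generated by a right-linear system
  with `k + 2` nonterminals whose axiom has `2 k + 7` occurrences of nonterminals, which is not an
  inverse homomorphic image of any ETOL language generated by a system with at most `k` symbols
  (terminals and nonterminals together), whatever the number of tables and the length of the rules.
* Hence for all ETOL languages `L_1, …, L_m` there is a right-linear EDTOL language over
  the two-letter alphabet which is not an inverse homomorphic image of any of them.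
* So no class which contains these languages over two letters and consists of ETOL languages
  has a hardest language: the ETOL languages (the question), the EDTOL languages, the ETOL languages
  of finite index, the EDTOL languages of finite index, and all classes between them.
-/

set_option autoImplicit false

namespace Pool.Agent.Results.MP_d9d02e_lc.SmallClasses

open Pool.Agent.Helper450.ET Pool.Agent.Y551.EL

theorem result :
    -- (1) the number of symbols
    (∀ k : ℕ, ∃ B : ETOL Bool, RightLinear B ∧ Nat.card B.ν = k + 2 ∧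
      B.axm.countP Sum.isRight = 2 * k + 7 ∧ [] ∉ B.lang ∧
      ∀ (α₀ : Type) [Finite α₀] (G : ETOL α₀), Nat.card (α₀ ⊕ G.ν) ≤ k →
        ∀ h : Bool → List α₀, B.lang ≠ {w | w.flatMap h ∈ G.lang}) ∧
    -- (2) finitely many languages
    (∀ (m : ℕ) (α₀ : Fin m → Type) [∀ i, Finite (α₀ i)] (L : ∀ i, Set (List (α₀ i))),
      (∀ i, IsETOL (L i)) → ∃ B : ETOL Bool, RightLinear B ∧ [] ∉ B.lang ∧
        ∀ (i : Fin m) (h : Bool → List (α₀ i)), B.lang ≠ {w | w.flatMap h ∈ L i}) ∧
    -- (3) classes of ETOL languages
    ∀ 𝒞 : ∀ α : Type, Set (Set (List α)),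
      (∀ B : ETOL Bool, RightLinear B → B.lang ∈ 𝒞 Bool) →
      (∀ (α : Type) [Finite α], ∀ L ∈ 𝒞 α, IsETOL L) →
      ¬ ∃ (α₀ : Type) (_ : Finite α₀) (L₀ : Set (List α₀)), L₀ ∈ 𝒞 α₀ ∧
        ∀ (α : Type) [Finite α], ∀ L ∈ 𝒞 α, ∃ h : α → List α₀,
          (([] : List α) ∉ L → L = {w | w.flatMap h ∈ L₀}) ∧
          ([] ∈ L → L = {w | w.flatMap h ∈ L₀ ∪ {[]}}) := by
  have h1 : ∀ k : ℕ, ∃ B : ETOL Bool, RightLinear B ∧ Nat.card B.ν = k + 2 ∧
      B.axm.countP Sum.isRight = 2 * k + 7 ∧ [] ∉ B.lang ∧
      ∀ (α₀ : Type) [Finite α₀] (G : ETOL α₀), Nat.card (α₀ ⊕ G.ν) ≤ k →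
        ∀ h : Bool → List α₀, B.lang ≠ {w | w.flatMap h ∈ G.lang} := fun k =>
    ⟨BG k, BG_rl k, BG_card k, BG_index k, BG_nil k, fun α₀ _ G hG h => main k α₀ G hG h⟩
  have h2 : ∀ (m : ℕ) (α₀ : Fin m → Type) [∀ i, Finite (α₀ i)] (L : ∀ i, Set (List (α₀ i))),
      (∀ i, IsETOL (L i)) → ∃ B : ETOL Bool, RightLinear B ∧ [] ∉ B.lang ∧
        ∀ (i : Fin m) (h : Bool → List (α₀ i)), B.lang ≠ {w | w.flatMap h ∈ L i} := by
    intro m α₀ _ L hL
    choose G hG using hL
    obtain ⟨B, b1, -, -, b2, b3⟩ := h1 (∑ i, Nat.card (α₀ i ⊕ (G i).ν))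
    refine ⟨B, b1, b2, fun i h => ?_⟩
    rw [← hG i]
    exact b3 (α₀ i) (G i)
      (Finset.single_le_sum (f := fun i => Nat.card (α₀ i ⊕ (G i).ν))
        (fun _ _ => Nat.zero_le _) (Finset.mem_univ i)) h
  refine ⟨h1, h2, ?_⟩
  rintro 𝒞 hin hout ⟨α₀, hfin, L₀, hL₀, H⟩
  obtain ⟨B, b1, b2, b3⟩ := h2 1 (fun _ => α₀) (fun _ => L₀) (fun _ => hout α₀ L₀ hL₀)
  obtain ⟨h, hh, -⟩ := H Bool B.lang (hin B b1)
  exact b3 0 h (hh b2)

end Pool.Agent.Results.MP_d9d02e_lc.SmallClasses
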